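import Pool.Agent.Helper95.RC.StF
import Pool.Agent.Helper31.RC.Bes2

/-!
# Project RC, SHARP, link 3: the kernel of the shift form for the sinus shift
`ψ φ = -d + k sin (3 φ + ph)`, and the closed form of its sections.
-/

set_option autoImplicit false

open MeasureTheory Set Filter Topology

namespace Pool.Agent.Helper99.RC

open Helper49.LT hiding sg
open Helper95.RC
open Helper31.Bes (J)

/-- the sinus shift -/
noncomputable def ps (d k ph : ℝ) (φ : ℝ) : ℝ := -d + k * Real.sin (3 * φ + ph)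

/-- the mean of `ee ((m - n) φ) * ee ((m + n) ψ / 2)` -/
noncomputable def CS (d k ph : ℝ) (m n : ℤ) : ℂ :=
  if (3 : ℤ) ∣ n - m then
    ee (-(((m + n : ℤ) : ℝ) * d / 2)) * ee ((((n - m) / 3 : ℤ) : ℝ) * ph) *
      (J ((n - m) / 3) (((m + n : ℤ) : ℝ) * k / 2) : ℂ)
  else 0

theorem ps_meas (d k ph : ℝ) : Measurable (ps d k ph) := by
  unfold ps
  fun_prop

theorem ps_per (d k ph φ : ℝ) : ps d k ph (φ + 2 * Real.pi) = ps d k ph φ := by
  unfold ps
  have : 3 * (φ + 2 * Real.pi) + ph = (3 * φ + ph) + (3 : ℕ) * (2 * Real.pi) := by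
    push_cast
    ring
  rw [this, Real.sin_add_nat_mul_two_pi]

theorem ps_abs (d k ph φ : ℝ) : |ps d k ph φ| ≤ |d| + |k| := by
  unfold ps
  refine (abs_add_le _ _).trans ?_
  rw [abs_neg, abs_mul]
  have h1 := Real.abs_sin_le_one (3 * φ + ph)
  nlinarith [abs_nonneg k]

theorem av_CS (d k ph : ℝ) (m n : ℤ) :
    av (fun φ => ee (((m - n : ℤ) : ℝ) * φ) * ee (((m + n : ℤ) : ℝ) * (ps d k ph φ / 2))) =
      CS d k ph m n := by
  have e : ∀ φ : ℝ, ee (((m - n : ℤ) : ℝ) * φ) * ee (((m + n : ℤ) : ℝ) * (ps d k ph φ / 2)) =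
      ee (-(((m + n : ℤ) : ℝ) * d / 2)) *
        ee ((((m + n : ℤ) : ℝ) * k / 2) * Real.sin ((3 : ℕ) * φ + ph) - ((n - m : ℤ) : ℝ) * φ) := by
    intro φ
    rw [← ee_add, ← ee_add]
    congr 1
    unfold ps
    push_cast
    ring
  simp_rw [e]
  rw [av_const_mul]
  unfold CS
  split_ifs with h
  · obtain ⟨j, hj⟩ := h
    have hj' : (n - m) / 3 = j := by omega
    rw [hj', mul_assoc]
    congr 1
    have h2 := Helper31.Bes.int_ee_sin_mul 3 (by norm_num) j (((m + n : ℤ) : ℝ) * k / 2) ph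
    rw [← h2]
    unfold av
    congr 1
    apply intervalIntegral.integral_congr
    intro φ _
    show ee _ = ee _
    congr 2
    rw [hj]
    push_cast
    ring
  · have h2 := Helper31.Bes.int_ee_sin_zero 3 (by norm_num) (n - m) (by exact_mod_cast h)
      (((m + n : ℤ) : ℝ) * k / 2) ph
    unfold av
    rw [h2, mul_zero, mul_zero]

theorem av_sin_zero (k ph : ℝ) (q : ℤ) (h3 : q ≠ 3) (h3' : q ≠ -3) :
    av (fun φ => ((k * Real.sin (3 * φ + ph) : ℝ) : ℂ) * ee ((q : ℝ) * φ)) = 0 := by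
  have e : ∀ φ : ℝ, ((k * Real.sin (3 * φ + ph) : ℝ) : ℂ) * ee ((q : ℝ) * φ) =
      (k / (2 * Complex.I) * ee ph) * ee (((q + 3 : ℤ) : ℝ) * φ) -
        (k / (2 * Complex.I) * ee (-ph)) * ee (((q - 3 : ℤ) : ℝ) * φ) := by
    intro φ
    have h1 : ((Real.sin (3 * φ + ph) : ℝ) : ℂ) =
        (ee (3 * φ + ph) - ee (-(3 * φ + ph))) / (2 * Complex.I) := by
      rw [eq_div_iff (mul_ne_zero two_ne_zero Complex.I_ne_zero)]
      generalize 3 * φ + ph = x
      rw [ee_neg]
      apply Complex.ext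
      · simp [ee_re, -Complex.ofReal_sin]
      · simp [ee_im, -Complex.ofReal_sin]
        ring
    rw [Complex.ofReal_mul, h1]
    have h2 : ee (3 * φ + ph) * ee ((q : ℝ) * φ) = ee ph * ee (((q + 3 : ℤ) : ℝ) * φ) := by
      rw [← ee_add, ← ee_add]
      congr 1
      push_cast
      ring
    have h4 : ee (-(3 * φ + ph)) * ee ((q : ℝ) * φ) = ee (-ph) * ee (((q - 3 : ℤ) : ℝ) * φ) := by
      rw [← ee_add, ← ee_add]
      congr 1
      push_cast
      ring
    rw [mul_assoc (↑k / (2 * Complex.I)) (ee ph), mul_assoc (↑k / (2 * Complex.I)) (ee (-ph)),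
      ← h2, ← h4]
    ring
  simp_rw [e]
  unfold av
  rw [intervalIntegral.integral_sub, mul_sub]
  · have h5 := av_const_mul (k / (2 * Complex.I) * ee ph) (fun φ => ee (((q + 3 : ℤ) : ℝ) * φ))
    have h6 := av_const_mul (k / (2 * Complex.I) * ee (-ph)) (fun φ => ee (((q - 3 : ℤ) : ℝ) * φ))
    rw [av_ee, if_neg (by omega), mul_zero] at h5
    rw [av_ee, if_neg (by omega), mul_zero] at h6
    unfold av at h5 h6
    rw [h5, h6, sub_zero]
  · exact (Continuous.intervalIntegrable (continuous_const.mul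
      (continuous_ee.comp (by fun_prop))) _ _)
  · exact (Continuous.intervalIntegrable (continuous_const.mul
      (continuous_ee.comp (by fun_prop))) _ _)

/-- the kernel on the antidiagonal -/
theorem Kc_anti (d k ph : ℝ) {m n : ℤ} (h : m + n = 0) :
    Kc (ps d k ph) m n = if m = 0 then (-d : ℂ) else 0 := by
  unfold Kc
  rw [if_pos h]
  have e : ∀ φ : ℝ, (ps d k ph φ : ℂ) * ee (((m - n : ℤ) : ℝ) * φ) =
      (-d : ℂ) * ee (((m - n : ℤ) : ℝ) * φ) +
        ((k * Real.sin (3 * φ + ph) : ℝ) : ℂ) * ee (((m - n : ℤ) : ℝ) * φ) := by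
    intro φ
    unfold ps
    push_cast
    ring
  simp_rw [e]
  have h1 := av_sin_zero k ph (m - n) (by omega) (by omega)
  have h2 := av_const_mul (-d : ℂ) (fun φ => ee (((m - n : ℤ) : ℝ) * φ))
  rw [av_ee] at h2
  unfold av at h1 h2 ⊢
  rw [intervalIntegral.integral_add, mul_add, h1, h2, add_zero]
  · by_cases hm : m = 0
    · rw [if_pos hm, if_pos (by omega), mul_one]
    · rw [if_neg hm, if_neg (by omega), mul_zero]
  · exact (Continuous.intervalIntegrable (continuous_const.mul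
      (continuous_ee.comp (by fun_prop))) _ _)
  · exact (Continuous.intervalIntegrable ((by fun_prop : Continuous
      (fun φ : ℝ => ((k * Real.sin (3 * φ + ph) : ℝ) : ℂ))).mul
      (continuous_ee.comp (by fun_prop))) _ _)

/-- the kernel off the antidiagonal -/
theorem Kc_off (d k ph : ℝ) {m n : ℤ} (h : m + n ≠ 0) :
    Kc (ps d k ph) m n = (2 / (Complex.I * ((m + n : ℤ) : ℂ))) *
      (CS d k ph m n - if m = n then 1 else 0) := by
  unfold Kc
  rw [if_neg h, av_CS]

/-- one entry of the double sum -/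
theorem entry_off (d k ph : ℝ) (a b : ℤ → ℂ) {m n : ℤ} (h : m + n ≠ 0) :
    -2 * (a m * (starRingEnd ℂ) (b n) * Kc (ps d k ph) m n).im =
      4 / ((m + n : ℤ) : ℝ) * (a m * (starRingEnd ℂ) (b n) * CS d k ph m n).re
        - if m = n then 2 / (m : ℝ) * (a m * (starRingEnd ℂ) (b m)).re else 0 := by
  have hr : (((m + n : ℤ) : ℝ)) ≠ 0 := by exact_mod_cast h
  rw [Kc_off d k ph h]
  have e : a m * (starRingEnd ℂ) (b n) * ((2 / (Complex.I * ((m + n : ℤ) : ℂ))) *
      (CS d k ph m n - if m = n then 1 else 0)) =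
      ((2 / ((m + n : ℤ) : ℝ) : ℝ) : ℂ) * (-Complex.I * (a m * (starRingEnd ℂ) (b n) *
        (CS d k ph m n - if m = n then 1 else 0))) := by
    have hI : Complex.I ≠ 0 := Complex.I_ne_zero
    have hc : ((m + n : ℤ) : ℂ) ≠ 0 := by exact_mod_cast h
    have hi : (Complex.I)⁻¹ = -Complex.I := Complex.inv_I
    push_cast
    push_cast at hc
    rw [div_eq_mul_inv, mul_inv, hi]
    ring
  rw [e, Complex.im_ofReal_mul]
  have e2 : ∀ z : ℂ, (-Complex.I * z).im = -z.re := by
    intro z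
    simp
  rw [e2]
  by_cases hmn : m = n
  · subst hmn
    rw [if_pos rfl, if_pos rfl, mul_sub, Complex.sub_re, mul_one]
    have hm : (m : ℝ) ≠ 0 := by
      have : m ≠ 0 := by omega
      exact_mod_cast this
    push_cast
    field_simp
    ring
  · rw [if_neg hmn, if_neg hmn, sub_zero, sub_zero]
    push_cast
    ring

/-- one entry of the double sum, antidiagonal -/
theorem entry_anti (d k ph : ℝ) (a b : ℤ → ℂ) {m n : ℤ} (h : m + n = 0) :
    -2 * (a m * (starRingEnd ℂ) (b n) * Kc (ps d k ph) m n).im =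
      if m = 0 then 2 * d * (a 0 * (starRingEnd ℂ) (b 0)).im else 0 := by
  rw [Kc_anti d k ph h]
  by_cases hm : m = 0
  · have hn : n = 0 := by omega
    subst hm
    subst hn
    rw [if_pos rfl, if_pos rfl]
    have : a 0 * (starRingEnd ℂ) (b 0) * (-d : ℂ) = ((-d : ℝ) : ℂ) *
        (a 0 * (starRingEnd ℂ) (b 0)) := by
      push_cast
      ring
    rw [this, Complex.im_ofReal_mul]
    ring
  · rw [if_neg hm, if_neg hm, mul_zero, Complex.zero_im, mul_zero]

/-- the quadratic form of the sections in closed form, one entry -/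
noncomputable def ent (d k ph : ℝ) (a b : ℤ → ℂ) (m n : ℤ) : ℝ :=
  4 / ((m + n : ℤ) : ℝ) * (a m * (starRingEnd ℂ) (b n) * CS d k ph m n).re

theorem entry_all (d k ph : ℝ) (a b : ℤ → ℂ) (m n : ℤ) :
    -2 * (a m * (starRingEnd ℂ) (b n) * Kc (ps d k ph) m n).im =
      ent d k ph a b m n - (if m = n then 2 / (m : ℝ) * (a m * (starRingEnd ℂ) (b m)).re else 0)
        + (if m = 0 then if n = 0 then 2 * d * (a 0 * (starRingEnd ℂ) (b 0)).im else 0 else 0) := by
  by_cases h : m + n = 0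
  · rw [entry_anti d k ph a b h]
    unfold ent
    rw [h]
    by_cases hm : m = 0
    · have hn : n = 0 := by omega
      subst hm
      subst hn
      simp
    · rw [if_neg hm, if_neg hm, if_neg (by omega)]
      simp
  · rw [entry_off d k ph a b h]
    have : (if m = 0 then if n = 0 then 2 * d * (a 0 * (starRingEnd ℂ) (b 0)).im else 0 else 0)
        = (0 : ℝ) := by
      by_cases hm : m = 0
      · rw [if_pos hm, if_neg (by omega)]
      · rw [if_neg hm]
    rw [this, add_zero]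
    rfl

/-- CLOSED FORM of the sections of link 3 for the sinus shift, over any finite set containing `0` -/
noncomputable def NS (d k ph : ℝ) (S : Finset ℤ) (a b : ℤ → ℂ) : ℝ :=
  ∑ m ∈ S, (‖a m‖ ^ 2 + ‖b m‖ ^ 2) / (m : ℝ) + ∑ m ∈ S, ∑ n ∈ S, ent d k ph a b m n
    + 2 * d * (a 0 * (starRingEnd ℂ) (b 0)).im

theorem NF_closed (d k ph : ℝ) (N : ℕ) (a b : ℤ → ℂ) :
    NF (ps d k ph) N a b = NS d k ph (Finset.Icc (-(N : ℤ)) N) a b := by
  unfold NF NS
  have h1 : ∀ m n : ℤ, (a m * (starRingEnd ℂ) (b n) * Kc (ps d k ph) m n).im =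
      -(1 / 2) * (ent d k ph a b m n -
        (if m = n then 2 / (m : ℝ) * (a m * (starRingEnd ℂ) (b m)).re else 0)
        + (if m = 0 then if n = 0 then 2 * d * (a 0 * (starRingEnd ℂ) (b 0)).im else 0 else 0)) := by
    intro m n
    rw [← entry_all]
    ring
  set S := Finset.Icc (-(N : ℤ)) N with hS
  have h0 : (0 : ℤ) ∈ S := by
    rw [hS, Finset.mem_Icc]
    omega
  rw [Complex.im_sum]
  simp_rw [Complex.im_sum, h1, ← Finset.mul_sum, Finset.sum_add_distrib, Finset.sum_sub_distrib]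
  have h2 : ∑ m ∈ S, ∑ n ∈ S, (if m = n then 2 / (m : ℝ) * (a m * (starRingEnd ℂ) (b m)).re else 0)
      = ∑ m ∈ S, 2 / (m : ℝ) * (a m * (starRingEnd ℂ) (b m)).re := by
    apply Finset.sum_congr rfl
    intro m hm
    rw [Finset.sum_ite_eq, if_pos hm]
  have h3 : ∑ m ∈ S, ∑ n ∈ S, (if m = 0 then if n = 0 then
      2 * d * (a 0 * (starRingEnd ℂ) (b 0)).im else 0 else 0)
      = 2 * d * (a 0 * (starRingEnd ℂ) (b 0)).im := by
    rw [Finset.sum_eq_single_of_mem 0 h0]
    · rw [Finset.sum_eq_single_of_mem 0 h0]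
      · simp
      · intro n _ hn
        simp [hn]
    · intro m _ hm
      simp [hm]
  rw [h2, h3]
  have h4 : ∀ m : ℤ, ‖a m + b m‖ ^ 2 / (m : ℝ) = (‖a m‖ ^ 2 + ‖b m‖ ^ 2) / (m : ℝ) +
      2 / (m : ℝ) * (a m * (starRingEnd ℂ) (b m)).re := by
    intro m
    rw [← Complex.normSq_eq_norm_sq, ← Complex.normSq_eq_norm_sq, ← Complex.normSq_eq_norm_sq,
      Complex.normSq_add]
    ring
  simp_rw [h4, Finset.sum_add_distrib]
  ring

/-- independence of the finite set -/
theorem NS_sub (d k ph : ℝ) {S T : Finset ℤ} (a b : ℤ → ℂ) (hST : S ⊆ T)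
    (ha : ∀ m, m ∉ S → a m = 0) (hb : ∀ m, m ∉ S → b m = 0) :
    NS d k ph T a b = NS d k ph S a b := by
  unfold NS
  congr 2
  · symm
    apply Finset.sum_subset hST
    intro m _ hm
    rw [ha m hm, hb m hm]
    simp
  · symm
    have h1 : ∀ m ∈ S, ∑ n ∈ S, ent d k ph a b m n = ∑ n ∈ T, ent d k ph a b m n := by
      intro m _
      apply Finset.sum_subset hST
      intro n _ hn
      unfold ent
      rw [hb n hn]
      simp
    rw [Finset.sum_congr rfl h1]
    apply Finset.sum_subset hST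
    intro m _ hm
    apply Finset.sum_eq_zero
    intro n _
    unfold ent
    rw [ha m hm]
    simp

/-- the form on finitely supported sequences -/
theorem NF_supp (d k ph : ℝ) {S : Finset ℤ} (a b : ℤ → ℂ) (ha : ∀ m, m ∉ S → a m = 0)
    (hb : ∀ m, m ∉ S → b m = 0) {N : ℕ} (hN : ∀ m ∈ S, |m| ≤ (N : ℤ)) :
    NF (ps d k ph) N a b = NS d k ph S a b := by
  rw [NF_closed]
  apply NS_sub d k ph a b _ ha hb
  intro m hm
  rw [Finset.mem_Icc]
  exact abs_le.1 (hN m hm)

end Pool.Agent.Helper99.RC
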