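import Pool.Agent.Helper36.RC.M_POB

/-!
# Project RC (record constant for MP_b21509_co), module POA: existence of the minimal position
-/

set_option autoImplicit false

open MeasureTheory Set Filter Metric

namespace Pool.Agent.Helper99.RC

open Helper97.CB Helper49.LT Helper49.RC

/-- lower bound of the support functional of a set containing a ball -/
theorem sp_ball {K : Set ℂ} {R r : ℝ} (hR : ∀ z ∈ K, ‖z‖ ≤ R) (hr : 0 < r)
    (hb : closedBall (0 : ℂ) r ⊆ K) (q : ℂ) : r * ‖q‖ ≤ sp K q := by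
  by_cases hq : q = 0
  · rw [hq, norm_zero, mul_zero]
    exact Pool.Agent.Helper36.RC.sp_nonneg (hb (mem_closedBall_self hr.le)) hR 0
  · have hn : 0 < ‖q‖ := norm_pos_iff.2 hq
    have hz : (((r / ‖q‖ : ℝ) : ℂ) * q) ∈ K := by
      apply hb
      rw [mem_closedBall_zero_iff, norm_mul, Complex.norm_real, Real.norm_eq_abs,
        abs_of_pos (by positivity)]
      rw [div_mul_cancel₀ _ hn.ne']
    have h1 := Pool.Agent.Helper36.RC.le_sp hR q _ hz
    have h2 : (((r / ‖q‖ : ℝ) : ℂ) * q * (starRingEnd ℂ) q).re = r * ‖q‖ := by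
      rw [mul_assoc, Complex.mul_conj, Complex.normSq_eq_norm_sq, ← Complex.ofReal_mul,
        Complex.ofReal_re]
      field_simp
    rwa [h2] at h1

theorem cont_ee : Continuous ee := by
  unfold ee
  fun_prop

theorem int_ee : ∫ t in (0 : ℝ)..(2 * Real.pi), ee (-t + -t) = 0 := by
  have h : ∀ t : ℝ, ee (-t + -t) = Complex.exp ((-2 * Complex.I) * t) := by
    intro t
    unfold ee
    congr 1
    push_cast
    ring
  simp_rw [h]
  rw [integral_exp_mul_complex (by simp)]
  have e1 : Complex.exp ((-2 * Complex.I) * ((2 * Real.pi : ℝ) : ℂ)) = 1 := by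
    rw [Complex.exp_eq_one_iff]
    refine ⟨-2, ?_⟩
    push_cast
    ring
  rw [e1]
  simp

/-- the functional -/
noncomputable def JJ (K : Set ℂ) (x : ℂ × ℂ) : ℝ :=
  ∫ t in (0 : ℝ)..(2 * Real.pi), sp K ((starRingEnd ℂ) x.1 * ee t + x.2 * ee (-t))

theorem JJ_cont {K : Set ℂ} (hne : K.Nonempty) {R : ℝ} (hR : ∀ z ∈ K, ‖z‖ ≤ R) :
    Continuous (JJ K) := by
  unfold JJ
  apply intervalIntegral.continuous_parametric_intervalIntegral_of_continuous'
  have h1 := Pool.Agent.Helper36.RC.sp_cont hne hR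
  have h2 := cont_ee
  apply h1.comp
  fun_prop

theorem JJ_ge {K : Set ℂ} {R r : ℝ} (hne : K.Nonempty) (hR : ∀ z ∈ K, ‖z‖ ≤ R) (hr : 0 < r)
    (hb : closedBall (0 : ℂ) r ⊆ K) (x : ℂ × ℂ) : 2 * Real.pi * r * ‖x.1‖ ≤ JJ K x := by
  have hp := Real.pi_pos
  have hc := cont_ee
  have hg : Continuous (fun t : ℝ => (starRingEnd ℂ) x.1 * ee t + x.2 * ee (-t)) := by
    fun_prop
  have hs : Continuous (fun t : ℝ => sp K ((starRingEnd ℂ) x.1 * ee t + x.2 * ee (-t))) :=
    (Pool.Agent.Helper36.RC.sp_cont hne hR).comp hg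
  have h1 : ∫ t in (0 : ℝ)..(2 * Real.pi), r * ‖(starRingEnd ℂ) x.1 * ee t + x.2 * ee (-t)‖
      ≤ JJ K x := by
    unfold JJ
    apply intervalIntegral.integral_mono_on (by positivity)
    · exact (continuous_const.mul hg.norm).intervalIntegrable _ _
    · exact hs.intervalIntegrable _ _
    · intro t _
      exact sp_ball hR hr hb _
  have h2 : ‖∫ t in (0 : ℝ)..(2 * Real.pi),
      ((starRingEnd ℂ) x.1 * ee t + x.2 * ee (-t)) * ee (-t)‖ ≤
      ∫ t in (0 : ℝ)..(2 * Real.pi), ‖(starRingEnd ℂ) x.1 * ee t + x.2 * ee (-t)‖ := by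
    refine (intervalIntegral.norm_integral_le_integral_norm (by positivity)).trans ?_
    apply le_of_eq
    apply intervalIntegral.integral_congr
    intro t _
    show ‖_ * _‖ = _
    rw [norm_mul, norm_ee, mul_one]
  have h3 : ∫ t in (0 : ℝ)..(2 * Real.pi),
      ((starRingEnd ℂ) x.1 * ee t + x.2 * ee (-t)) * ee (-t) =
      2 * Real.pi * (starRingEnd ℂ) x.1 := by
    have e : ∀ t : ℝ, ((starRingEnd ℂ) x.1 * ee t + x.2 * ee (-t)) * ee (-t) =
        (starRingEnd ℂ) x.1 + x.2 * ee (-t + -t) := by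
      intro t
      rw [add_mul, mul_assoc, mul_assoc, ← ee_add, ← ee_add, add_neg_cancel, ee_zero, mul_one]
    simp_rw [e]
    rw [intervalIntegral.integral_add, intervalIntegral.integral_const_mul, int_ee,
      intervalIntegral.integral_const]
    · rw [mul_zero, add_zero, sub_zero, Complex.real_smul]
      push_cast
      ring
    · exact continuous_const.intervalIntegrable _ _
    · apply Continuous.intervalIntegrable
      fun_prop
  rw [h3] at h2
  have h4 : ‖(2 * Real.pi * (starRingEnd ℂ) x.1 : ℂ)‖ = 2 * Real.pi * ‖x.1‖ := by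
    rw [norm_mul, Complex.norm_conj]
    congr 1
    rw [norm_mul, Complex.norm_real, Real.norm_eq_abs, abs_of_pos hp]
    simp
  rw [h4] at h2
  rw [intervalIntegral.integral_const_mul] at h1
  nlinarith [mul_le_mul_of_nonneg_left h2 hr.le]

theorem hPOA : StPoa := by
  intro K hK h0
  have hp := Real.pi_pos
  obtain ⟨R, hR⟩ : ∃ R : ℝ, ∀ z ∈ K, ‖z‖ ≤ R := by
    obtain ⟨R, hR⟩ := hK.2.1.isBounded.exists_norm_le
    exact ⟨R, hR⟩
  have hne : K.Nonempty := ⟨0, interior_subset h0⟩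
  obtain ⟨r, hr, hb⟩ : ∃ r > 0, closedBall (0 : ℂ) r ⊆ K := by
    obtain ⟨r, hr, hb⟩ := Metric.isOpen_iff.1 isOpen_interior 0 h0
    refine ⟨r / 2, by positivity, ?_⟩
    intro z hz
    apply interior_subset
    apply hb
    rw [mem_closedBall] at hz
    rw [mem_ball]
    linarith
  have hJc := JJ_cont hne hR
  have hge := JJ_ge hne hR hr hb
  set M : ℝ := JJ K (1, 0) / (2 * Real.pi * r) with hM
  have hpr : 0 < 2 * Real.pi * r := by positivity
  have hM1 : 1 ≤ M := by
    rw [hM, le_div_iff₀ hpr]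
    have := hge (1, 0)
    simpa using this
  have hMJ : 2 * Real.pi * r * M = JJ K (1, 0) := by
    rw [hM]
    field_simp
  set S : Set (ℂ × ℂ) := {x | ‖x.1‖ ^ 2 - ‖x.2‖ ^ 2 = 1} ∩ closedBall (0 : ℂ × ℂ) M with hS
  have hcl : IsClosed {x : ℂ × ℂ | ‖x.1‖ ^ 2 - ‖x.2‖ ^ 2 = 1} :=
    isClosed_eq (by fun_prop) continuous_const
  have hcomp : IsCompact S := (isCompact_closedBall (0 : ℂ × ℂ) M).inter_left hcl
  have hSne : S.Nonempty := by
    refine ⟨(1, 0), ?_, ?_⟩
    · simp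
    · rw [mem_closedBall_zero_iff, Prod.norm_def]
      simpa using hM1
  obtain ⟨x, hxS, hxm⟩ := hcomp.exists_isMinOn hSne hJc.continuousOn
  refine ⟨x.1, x.2, hxS.1, ?_⟩
  intro α' β' hab
  show JJ K x ≤ JJ K (α', β')
  have hβ : ‖β'‖ ≤ ‖α'‖ := by
    have h1 := norm_nonneg α'
    have h2 := norm_nonneg β'
    nlinarith
  by_cases hα : ‖α'‖ ≤ M
  · apply hxm
    refine ⟨hab, ?_⟩
    rw [mem_closedBall_zero_iff, Prod.norm_def]
    exact max_le hα (hβ.trans hα)
  · have h1 : JJ K x ≤ JJ K (1, 0) := by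
      apply hxm
      refine ⟨?_, ?_⟩
      · simp
      · rw [mem_closedBall_zero_iff, Prod.norm_def]
        simpa using hM1
    have h2 := hge (α', β')
    simp only at h2
    have h3 : 2 * Real.pi * r * M ≤ 2 * Real.pi * r * ‖α'‖ :=
      mul_le_mul_of_nonneg_left (not_le.1 hα).le hpr.le
    linarith

end Pool.Agent.Helper99.RC
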