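import Pool.Agent.Helper95.RC.StF

/-!
# Project RC, SHARP, link 3: the sections of the shift form converge to a lower bound of `AQQG`
-/

set_option autoImplicit false

open MeasureTheory Set Filter Topology

namespace Pool.Agent.Helper99.RC

open Helper49.LT hiding sg
open Helper87.RC (Fam BM intg_of_bddC)
open Helper56.RC (fc)
open Helper44.RCG (G1 G2 N0)
open Helper95.RC

/-- the inner integral of the shift form -/
noncomputable def inn (ψ : ℝ → ℝ) (f g : ℝ → ℂ) (φ : ℝ) : ℂ :=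
  ∫ u in (0 : ℝ)..(ψ φ), f (φ + u / 2) * (starRingEnd ℂ) (g (φ - u / 2))

theorem inn_eq (ψ : ℝ → ℝ) (f g : ℝ → ℂ) (φ : ℝ) : inn ψ f g φ =
    (ψ φ : ℂ) * ∫ s in (0 : ℝ)..1, f (φ + ψ φ * s / 2) * (starRingEnd ℂ) (g (φ - ψ φ * s / 2)) := by
  have h := intervalIntegral.smul_integral_comp_mul_left (a := 0) (b := 1)
    (fun u : ℝ => f (φ + u / 2) * (starRingEnd ℂ) (g (φ - u / 2))) (ψ φ)
  rw [mul_zero, mul_one] at h
  unfold inn
  rw [← h, Complex.real_smul]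

theorem inn_meas {f g : ℝ → ℂ} (hf : Measurable f) (hg : Measurable g) {ψ : ℝ → ℝ}
    (hψ : Measurable ψ) : Measurable (inn ψ f g) := by
  have e : inn ψ f g = fun φ => (ψ φ : ℂ) *
      ∫ s in (0 : ℝ)..1, f (φ + ψ φ * s / 2) * (starRingEnd ℂ) (g (φ - ψ φ * s / 2)) := by
    funext φ
    exact inn_eq ψ f g φ
  rw [e]
  apply (Complex.measurable_ofReal.comp hψ).mul
  simp_rw [intervalIntegral.integral_of_le zero_le_one]
  apply StronglyMeasurable.measurable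
  apply StronglyMeasurable.integral_prod_right (f := fun (φ s : ℝ) =>
    f (φ + ψ φ * s / 2) * (starRingEnd ℂ) (g (φ - ψ φ * s / 2)))
  apply Measurable.stronglyMeasurable
  have h1 : Measurable (fun q : ℝ × ℝ => q.1 + ψ q.1 * q.2 / 2) := by fun_prop
  have h2 : Measurable (fun q : ℝ × ℝ => q.1 - ψ q.1 * q.2 / 2) := by fun_prop
  exact (hf.comp h1).mul (Complex.continuous_conj.measurable.comp (hg.comp h2))

theorem inn_le {f g : ℝ → ℂ} {C D P : ℝ} (hf : ∀ t, ‖f t‖ ≤ C) (hg : ∀ t, ‖g t‖ ≤ D) {ψ : ℝ → ℝ}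
    (hψ : ∀ t, |ψ t| ≤ P) (φ : ℝ) : ‖inn ψ f g φ‖ ≤ C * D * P := by
  have hC : 0 ≤ C := (norm_nonneg _).trans (hf 0)
  have hD : 0 ≤ D := (norm_nonneg _).trans (hg 0)
  have h := intervalIntegral.norm_integral_le_of_norm_le_const (a := 0) (b := ψ φ) (C := C * D)
    (f := fun u : ℝ => f (φ + u / 2) * (starRingEnd ℂ) (g (φ - u / 2))) (by
      intro u _
      rw [norm_mul, Complex.norm_conj]
      exact mul_le_mul (hf _) (hg _) (norm_nonneg _) hC)
  refine h.trans ?_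
  rw [sub_zero]
  exact mul_le_mul_of_nonneg_left (hψ φ) (mul_nonneg hC hD)

theorem im_int' {f : ℝ → ℂ} {a b : ℝ} (hf : IntervalIntegrable f volume a b) :
    ∫ t in a..b, (f t).im = (∫ t in a..b, f t).im :=
  Complex.imCLM.intervalIntegral_comp_comm hf

theorem SH_im {f g : ℝ → ℂ} {C D P : ℝ} (hf : BM f C) (hg : BM g D) {ψ : ℝ → ℝ}
    (hψ : Measurable ψ) (hb : ∀ t, |ψ t| ≤ P) :
    1 / Real.pi * (∫ φ in (0 : ℝ)..(2 * Real.pi), ∫ u in (0 : ℝ)..(ψ φ),
      (f (φ + u / 2) * (starRingEnd ℂ) (g (φ - u / 2))).im) = 2 * (SH ψ f g).im := by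
  have e1 : ∀ φ, ∫ u in (0 : ℝ)..(ψ φ), (f (φ + u / 2) * (starRingEnd ℂ) (g (φ - u / 2))).im =
      (inn ψ f g φ).im := by
    intro φ
    apply im_int'
    apply intg_of_bddC (C := C * D)
    · exact (hf.m.comp (by fun_prop)).mul
        (Complex.continuous_conj.measurable.comp (hg.m.comp (by fun_prop)))
    · intro u
      rw [norm_mul, Complex.norm_conj]
      exact mul_le_mul (hf.b _) (hg.b _) (norm_nonneg _) hf.C0
  simp_rw [e1]
  rw [im_int' (intg_of_bddC (inn_meas hf.m hg.m hψ) (inn_le hf.b hg.b hb) _ _)]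
  have e2 : SH ψ f g = (1 / (2 * Real.pi) : ℂ) * ∫ φ in (0 : ℝ)..(2 * Real.pi), inn ψ f g φ := rfl
  rw [e2]
  have e3 : (1 / (2 * Real.pi) : ℂ) = ((1 / (2 * Real.pi) : ℝ) : ℂ) := by push_cast; rfl
  rw [e3, Complex.im_ofReal_mul]
  have hp := Real.pi_pos
  field_simp

theorem tend_Icc {f : ℤ → ℝ} {L : ℝ} (h : HasSum f L) :
    Tendsto (fun N : ℕ => ∑ m ∈ Finset.Icc (-(N : ℤ)) N, f m) atTop (𝓝 L) := by
  apply h.comp
  apply tendsto_atTop_finset_of_monotone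
  · intro a b hab
    apply Finset.Icc_subset_Icc
    · simp only [neg_le_neg_iff]
      exact_mod_cast hab
    · exact_mod_cast hab
  · intro m
    refine ⟨m.natAbs, ?_⟩
    rw [Finset.mem_Icc]
    omega

theorem hL3 (hSHL : StSHL) (hNZ : StNZ) : StL3 := by
  intro A B v C ψ h hq hψ hp hb
  have h1 : BM (G1 A v) (2 * C) := ⟨Helper44.RCG.G1_meas h, Helper44.RCG.G1_le h⟩
  have h2 : BM (G2 B v) (2 * C) := ⟨Helper44.RCG.G2_meas h, Helper44.RCG.G2_le h⟩
  refine ⟨N0 A B v - 2 * (SH ψ (G1 A v) (G2 B v)).im, ?_, ?_⟩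
  · have t1 := tend_Icc (hNZ A B v C h)
    have t2 := hSHL (G1 A v) (G2 B v) (2 * C) (2 * C) (Real.pi / 3) ψ h1 h2
      (Helper44.RCG.G1_per h) (Helper44.RCG.G2_per h) hψ hb
    have t3 := (Complex.continuous_im.tendsto _).comp t2
    exact t1.sub (t3.const_mul 2)
  · have key := Helper44.RCG.shiftG h hq hψ hp hb
    rw [SH_im h1 h2 hψ hb] at key
    exact key

end Pool.Agent.Helper99.RC
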